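import Pool.Agent.TH490.DH.Four

/-!
# The surface of optimal linear domination bounds for 4-uniform hypergraphs

`z_4(x, y) = 1 / (4 x + y)` for all `(x, y) ∈ D_4`, and the supremum is attained (by a single edge).

Proof: in a minimal cover of the vertices by edges every edge has a private vertex; a transversal of
the 3-uniform hypergraph which remains when the private vertices are deleted is a dominating set, and
the transversal theorem for 3-uniform hypergraphs (potential form, starting library `W325.SD`) gives
`γ ≤ n / 4`. Together with `n ≤ 4 m` this gives `γ (4 x + y) ≤ x n + y m` on `D_4`.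
-/

set_option autoImplicit false

namespace Pool.Agent.Results.MP_0828a1_co.FourUniform

open Pool.Agent.TH490.DH

/-- For all `(x, y) ∈ D_4` the greatest ratio `γ(H) / (x n_H + y m_H)`, over all finite 4-uniform
hypergraphs `H` without isolated vertices, is `1 / (4 x + y)`. -/
theorem result (x y : ℝ) (hy : 0 ≤ y) (hx : -y / 4 < x) :
    IsGreatest (ratios 4 x y) (1 / (4 * x + y)) :=
  z4 x y hy hx

end Pool.Agent.Results.MP_0828a1_co.FourUniform
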